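import Pool.Agent.R986.KD9

/-! Maximal density of stationary k-dependent hard-core processes on the integers:
p_2 is not 1/3; two-sided bounds for all k. -/

namespace Pool.Agent.Results.MP_38bc51_pr.CriticalDensity

open MeasureTheory Pool.Agent.R986.KD

theorem result :
    ((7 : ℝ) / 20 ≤ pcrit 2 ∧ pcrit 2 ≤ (3 - Real.sqrt 5) / 2 ∧ pcrit 2 ≠ 1 / 3) ∧
    (∀ k : ℕ, 2 ≤ k → (7 : ℝ) / 20 ≤ pcrit k) ∧
    (∀ k : ℕ, 3 ≤ k → 1 / 2 - Real.log k / k ≤ pcrit k) ∧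
    (∀ k : ℕ, pcrit k ≤ 1 / 2 - 3 / (32 * ((k : ℝ) + 2))) ∧
    (∀ k : ℕ, ∃ μ : Measure Cfg, IsProc k μ ∧ μ.real {x | x 0 = true} = pcrit k) := by
  refine ⟨⟨pcrit_two_ge, pcrit_two_le, ?_⟩, ?_, pcrit_lower, pcrit_upper, exists_critical⟩
  · intro h
    have := pcrit_two_ge
    rw [h] at this
    norm_num at this
  · intro k hk
    exact le_trans pcrit_two_ge (pcrit_mono hk)

end Pool.Agent.Results.MP_38bc51_pr.CriticalDensity
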